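import Mathlib
import Pool.Agent.R932.SQ.IntFp

/-!
# The integral Mumford-Tate conjecture with one bound at 100 percent of the primes, from finitely many
Frobenius polynomials at one prime, for `H^2` with a transcendental part of odd rank

Let `X` be a smooth projective variety over a field `k` which is finitely generated over `ℚ`,
`H = N ⊕ T` the decomposition (over `ℚ`, and over `ℤ_ℓ` for almost all `ℓ`) of `H^2(X, ℤ(1))` into the
algebraic classes and the transcendental part; `T` is a Hodge structure of K3 type (`p = 1`) or with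
`p_g = p` small in comparison with its rank, with endomorphisms `ℚ`, and its rank `n = 2 p + q` is odd and at
least `5`. `Γ` is the Galois group of `k`, `K` a number field and `s : G_K → Γ` the homomorphism given by a
closed point of the generic fibre of a model of `X` (if `k` is a number field, then `K = k` and `s` is the
identity). The representations of `Γ` on `N_ℓ` (with finite image) and on the lattices `T_ℓ`
preserve the forms and are compatible (Deligne). `Γ'` is the subgroup of the field `k^conn`.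

**Theorem.** Suppose that for ONE prime number `ℓ₀` which does not divide `n - 1` there are three places of `K`
outside `S`, prime to `ℓ₀`, with the following properties:
* at the first place `P = (X - ε) A` with `ε = ±1`, `A` irreducible over `ℚ_{ℓ₀}`, and no quotient of different
  roots of `P` is a root of unity; at the second place `P = (X - η) B`, and
  `A(1) A(-1) B(1) B(-1)` is not a square in `ℚ_{ℓ₀}` and `B(1) B(-1) ≠ 0`;
* at the third place `P = (X - 1) A`, no root of `A` is a root of unity, and `x y ≠ z` for the roots of `A`.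
Then for all prime numbers `ℓ` outside a set of natural density zero the image of `Γ'` is a subgroup of `G(ℤ_ℓ)`
of index at most `c(n) [Γ : Γ']`, `G` the Mumford-Tate group, with a universal function `c`: the bound of
Serre's question holds with one explicit constant at 100 percent of the primes.

For a given `X` these are finitely many conditions on three polynomials with rational coefficients, which can
be verified by point counts. In the known result `IntegralOddRankDensityOne` of the same problem there were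
conditions for all elements of `Gal(ℚ)` (so on the Galois groups of infinitely many Frobenius polynomials), and in
`OnePrimeSuffices` the finiteness of the index at the prime `ℓ₀` was a hypothesis.

Idea of the proof. The irreducible factor and the discriminants show that the representation of every open
subgroup of `G_K` on `T_{ℓ₀}` is irreducible, the condition `x y ≠ z` excludes all proper Lie subalgebras of
`so(T)` which contain the logarithm of the Frobenius element (Zarhin), so the image at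
`ℓ₀` is open in the orthogonal group. Then one applies the method of `OnePrimeSuffices`.
-/

set_option autoImplicit false

namespace Pool.Agent.Results.MP_2b5912_ag.FrobeniusPolynomialsAtOnePrime

open MvPolynomial Matrix Filter Topology NumberField IsDedekindDomain
open Pool.Agent.W544.PG (HS)

noncomputable section

section groups

variable {ι : Type} [Fintype ι] [DecidableEq ι]

/-- The value of a rational polynomial in the entries at a matrix. -/
def value {R : Type} [CommRing R] [Algebra ℚ R] (g : Matrix ι ι R)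
    (f : MvPolynomial (ι × ι) ℚ) : R :=
  aeval (fun q : ι × ι => g q.1 q.2) f

/-- `G` is the set of complex points of an algebraic subgroup over `ℚ` of the general linear
group. -/
def IsQGroup (G : Set (Matrix ι ι ℂ)) : Prop :=
  (∃ P : Set (MvPolynomial (ι × ι) ℚ), ∀ g, g ∈ G ↔ g.det ≠ 0 ∧ ∀ f ∈ P, value g f = 0) ∧
  1 ∈ G ∧ (∀ a ∈ G, ∀ b ∈ G, a * b ∈ G) ∧ ∀ a ∈ G, a⁻¹ ∈ G

/-- The complex points of the Mumford-Tate group: the smallest algebraic subgroup over `ℚ` which
contains `h z` for all `z`. -/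
def mumfordTate (h : ℂ → Matrix ι ι ℂ) : Set (Matrix ι ι ℂ) :=
  {g | ∀ G, IsQGroup G → (∀ z, z ≠ 0 → h z ∈ G) → g ∈ G}

/-- The points of the Mumford-Tate group over a field `R`. -/
def InMumfordTate {R : Type} [Field R] [Algebra ℚ R] (h : ℂ → Matrix ι ι ℂ)
    (g : Matrix ι ι R) : Prop :=
  ∀ f : MvPolynomial (ι × ι) ℚ, (∀ m ∈ mumfordTate h, value m f = 0) → value g f = 0

/-- The group `G(ℤ_ℓ)`: the matrices in `GL(ℤ_ℓ)` which are points of the Mumford-Tate group. -/
def mumfordTateIntegral (ℓ : ℕ) [Fact ℓ.Prime] (h : ℂ → Matrix ι ι ℂ) : Set (Matrix ι ι ℤ_[ℓ]) :=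
  {g | IsUnit g.det ∧ InMumfordTate h (g.map (algebraMap ℤ_[ℓ] ℚ_[ℓ]))}

/-- The Zariski closure over `ℚ_ℓ` of the image of the subgroup `Γ'` is connected: a polynomial that
vanishes on the image of a subgroup of finite index of `Γ'` vanishes on the image of `Γ'`. -/
def HasConnectedClosure {ℓ : ℕ} [Fact ℓ.Prime] {Γ : Type} [Group Γ] (ρ : Γ →* Matrix ι ι ℤ_[ℓ])
    (Γ' : Subgroup Γ) : Prop :=
  ∀ f : MvPolynomial (ι × ι) ℚ_[ℓ],
    (∃ Δ : Subgroup Γ, Δ.index ≠ 0 ∧ ∀ σ ∈ Γ', σ ∈ Δ →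
      aeval (fun q : ι × ι => algebraMap ℤ_[ℓ] ℚ_[ℓ] (ρ σ q.1 q.2)) f = 0) →
    ∀ σ ∈ Γ', aeval (fun q : ι × ι => algebraMap ℤ_[ℓ] ℚ_[ℓ] (ρ σ q.1 q.2)) f = 0

/-- `H` is contained in `G`, and `G` is the union of at most `C` left cosets `x H` (for groups: `H` is a
subgroup of `G` of index at most `C`). -/
def HasIndexAtMost {R : Type} [CommRing R] (C : ℕ) (H G : Set (Matrix ι ι R)) : Prop :=
  H ⊆ G ∧ ∃ F : Finset (Matrix ι ι R), F.card ≤ C ∧ ∀ g ∈ G, ∃ x ∈ F, ∃ h ∈ H, g = x * h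

end groups

/-- The action of `ℂ^×` on `N ⊕ T`: trivial on `N`, and on `T` it is multiplication by `conj z / z`,
`1`, `z / conj z` on the parts where `T.x` is `1`, `0`, `-1`. -/
def hodge {n : ℕ} (κ : Type) [Fintype κ] [DecidableEq κ] (T : HS n) (z : ℂ) :
    Matrix (κ ⊕ Fin n) (κ ⊕ Fin n) ℂ :=
  fromBlocks 1 0 0 (1 + ((starRingEnd ℂ z / z - 1) / 2) • (T.x * T.x + T.x) +
    ((z / starRingEnd ℂ z - 1) / 2) • (T.x * T.x - T.x))

/-- An `ℓ`-adic integral matrix as a matrix over `ℚ_ℓ`. -/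
def rat {n ℓ : ℕ} [Fact ℓ.Prime] (g : Matrix (Fin n) (Fin n) ℤ_[ℓ]) :
    Matrix (Fin n) (Fin n) ℚ_[ℓ] :=
  g.map (algebraMap ℤ_[ℓ] ℚ_[ℓ])

/-- The integral representation `α ⊕ β` of the Galois group on `N_ℓ ⊕ T_ℓ`. -/
def galois {n : ℕ} {κ : Type} [Fintype κ] [DecidableEq κ] {ℓ : ℕ} [Fact ℓ.Prime] {Γ : Type}
    [Group Γ] (α : Γ →* Matrix κ κ ℤ_[ℓ]) (β : Γ →* Matrix (Fin n) (Fin n) ℤ_[ℓ]) :
    Γ →* Matrix (κ ⊕ Fin n) (κ ⊕ Fin n) ℤ_[ℓ] where
  toFun σ := fromBlocks (α σ) 0 0 (β σ)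
  map_one' := (Pool.Agent.R932.totI α β).map_one
  map_mul' := (Pool.Agent.R932.totI α β).map_mul

/-- the absolute Galois group of `K`, with its profinite (Krull) topology -/
abbrev AbsoluteGaloisGroup (K : Type) [Field K] : Type := Gal(AlgebraicClosure K/K)

/-- `σ` is an (arithmetic) Frobenius element at the prime `v` of the number field `K`: for some prime
`Q` of the algebraic closure above `v` it acts on the residue field as `x ↦ x ^ N(v)` -/
def IsFrobenius {K : Type} [Field K] [NumberField K] (v : HeightOneSpectrum (𝓞 K))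
    (σ : AbsoluteGaloisGroup K) : Prop :=
  ∃ Q : Ideal (𝓞 (AlgebraicClosure K)), Q.IsMaximal ∧
    Q.comap (algebraMap (𝓞 K) (𝓞 (AlgebraicClosure K))) = v.asIdeal ∧
    ∀ x : 𝓞 (AlgebraicClosure K), σ • x - x ^ Ideal.absNorm v.asIdeal ∈ Q

/-- `α` and `β` are the representations on `N_ℓ` and on `T_ℓ`: both are continuous, `α` has finite
image, `β` preserves the form of `T`, and for all `v ∉ S` which are prime to `ℓ` the characteristic
polynomial of (the image under `s` of) the geometric Frobenius elements `σ⁻¹` (`σ` arithmetic) at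
`v` on `T` is `P v` -/
def IsSystem {n : ℕ} {K : Type} [Field K] [NumberField K] {Γ : Type} [Group Γ]
    [TopologicalSpace Γ] (s : AbsoluteGaloisGroup K →* Γ) {κ : Type} [Fintype κ] [DecidableEq κ]
    (T : HS n) (S : Set (HeightOneSpectrum (𝓞 K)))
    (P : HeightOneSpectrum (𝓞 K) → Polynomial ℚ) (ℓ : ℕ) [Fact ℓ.Prime]
    (α : Γ →* Matrix κ κ ℤ_[ℓ]) (β : Γ →* Matrix (Fin n) (Fin n) ℤ_[ℓ]) : Prop :=
  Continuous α ∧ (Set.range α).Finite ∧ Continuous β ∧
    (∀ σ, (rat (β σ))ᵀ * T.Q.map (algebraMap ℚ ℚ_[ℓ]) * rat (β σ) =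
      T.Q.map (algebraMap ℚ ℚ_[ℓ])) ∧
    ∀ v ∉ S, (ℓ : 𝓞 K) ∉ v.asIdeal → ∀ σ : AbsoluteGaloisGroup K, IsFrobenius v σ →
      (rat (β (s σ⁻¹))).charpoly = (P v).map (algebraMap ℚ ℚ_[ℓ])

/-- The polynomial `P` is separable, and no quotient of two different roots is a root of unity. -/
def IsNeat (P : Polynomial ℚ) : Prop :=
  P.Separable ∧ ∀ n : ℕ, 0 < n → ∀ x y : ℂ, Polynomial.aeval x P = 0 → Polynomial.aeval y P = 0 →
    x ^ n = y ^ n → x = y

/-- The criterion for odd rank: for some `v`, `w` the polynomials `P v = (X - ε) A` (`ε = ±1`, neat) and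
`P w = (X - η) B` are such that `A` is irreducible over `ℚ_ℓ`, `B(1)` and `B(-1)` are not zero and
`A(1) A(-1) B(1) B(-1)` is not a square in `ℚ_ℓ`; and for some `v` the polynomial is `(X - 1) A` where no root of
`A` is a root of unity, and the product of two roots of `A` is never a root. -/
def OddCriterion {K : Type} [Field K] [NumberField K] (S : Set (HeightOneSpectrum (𝓞 K)))
    (P : HeightOneSpectrum (𝓞 K) → Polynomial ℚ) (ℓ : ℕ) [Fact ℓ.Prime] : Prop :=
  (∃ v ∉ S, ∃ w ∉ S, (ℓ : 𝓞 K) ∉ v.asIdeal ∧ (ℓ : 𝓞 K) ∉ w.asIdeal ∧ IsNeat (P v) ∧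
    ∃ (ε η : ℚ) (A B : Polynomial ℚ), ε * ε = 1 ∧ P v = (Polynomial.X - Polynomial.C ε) * A ∧
      P w = (Polynomial.X - Polynomial.C η) * B ∧
      Irreducible (A.map (algebraMap ℚ ℚ_[ℓ])) ∧ B.eval 1 ≠ 0 ∧ B.eval (-1) ≠ 0 ∧
      ¬ IsSquare (algebraMap ℚ ℚ_[ℓ] (A.eval 1 * A.eval (-1) * (B.eval 1 * B.eval (-1))))) ∧
  ∃ v ∉ S, (ℓ : 𝓞 K) ∉ v.asIdeal ∧ ∃ A : Polynomial ℚ, P v = (Polynomial.X - 1) * A ∧
    (∀ x : ℂ, Polynomial.aeval x A = 0 → ∀ n : ℕ, 0 < n → x ^ n ≠ 1) ∧
    ∀ x y z : ℂ, Polynomial.aeval x A = 0 → Polynomial.aeval y A = 0 → Polynomial.aeval z A = 0 →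
      x * y ≠ z

/-- the set `A` of prime numbers has natural density zero -/
def HasDensityZero (A : Set ℕ) : Prop :=
  Tendsto (fun n : ℕ => (Nat.card {ℓ : ℕ // ℓ ≤ n ∧ ℓ ∈ A} : ℝ) / (Nat.primeCounting n : ℝ))
    atTop (𝓝 0)

/-- **The integral Mumford-Tate conjecture for `H^2 = N ⊕ T`, `T` of odd rank, with one explicit bound at 100
percent of the primes `ℓ`, from three Frobenius polynomials at one prime `ℓ₀`.** -/
theorem result : ∃ c : ℕ → ℕ, ∀ (n : ℕ) (T : HS n) (_ : Odd n) (_ : 5 ≤ n)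
    -- the Hodge structure
    (_ : ∀ A : Matrix (Fin n) (Fin n) ℚ,
      A.map (fun a : ℚ => (a : ℂ)) * T.x = T.x * A.map (fun a : ℚ => (a : ℂ)) →
      ∃ c : ℚ, A = c • (1 : Matrix (Fin n) (Fin n) ℚ))
    (p q : ℕ) (_ : (T.x * T.x).trace = 2 * (p : ℂ)) (_ : n = 2 * p + q)
    (_ : (p = 1 ∧ 0 < q) ∨ (0 < p ∧ 2 * p ^ 2 * (p ^ 2 + 1) < (q - 2 * p) * (q + p)))
    -- the Galois group
    (K : Type) [Field K] [NumberField K] (Γ : Type) [Group Γ] [TopologicalSpace Γ]
    [IsTopologicalGroup Γ] [CompactSpace Γ] (s : AbsoluteGaloisGroup K →* Γ) (_ : Continuous s)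
    (S : Set (HeightOneSpectrum (𝓞 K))) (_ : S.Finite)
    (P : HeightOneSpectrum (𝓞 K) → Polynomial ℚ)
    (κ : Type) [Fintype κ] [DecidableEq κ]
    (α : ∀ (ℓ : ℕ) [Fact ℓ.Prime], Γ →* Matrix κ κ ℤ_[ℓ])
    (β : ∀ (ℓ : ℕ) [Fact ℓ.Prime], Γ →* Matrix (Fin n) (Fin n) ℤ_[ℓ])
    (_ : ∀ (ℓ : ℕ) [Fact ℓ.Prime], IsSystem s T S P ℓ (α ℓ) (β ℓ))
    -- the subgroup of the field `k^conn`
    (Γ' : Subgroup Γ) (_ : Γ'.index ≠ 0)
    (_ : ∀ (ℓ : ℕ) [Fact ℓ.Prime], HasConnectedClosure (galois (α ℓ) (β ℓ)) Γ')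
    -- the prime number `ℓ₀`
    (ℓ₀ : ℕ) [Fact ℓ₀.Prime] (_ : ¬ ℓ₀ ∣ n - 1) (_ : OddCriterion S P ℓ₀),
    HasDensityZero {ℓ | ∃ _ : Fact ℓ.Prime,
      ¬ HasIndexAtMost (c n * Γ'.index) (galois (α ℓ) (β ℓ) '' (Γ' : Set Γ))
        (mumfordTateIntegral ℓ (hodge κ T))} := by
  refine ⟨Pool.Agent.R932.cI, ?_⟩
  intro n T hodd hn5 hEnd p q htr hn hpq K _ _ Γ _ _ _ _ s hs S hS P κ _ _ α β hsys Γ' hΓ' hconn ℓ₀
    _ hdvd hcond
  have hB : T.Big (Pool.Agent.R932.one1 n) (fun _ => p) (fun _ => q) := by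
    refine ⟨fun a b hab => absurd rfl hab, fun a b hab => absurd rfl hab, fun A hA => ?_,
      fun i => ?_, fun i => ?_, fun i => ?_⟩
    · obtain ⟨c, hc⟩ := hEnd A hA
      exact ⟨fun _ => c, by rw [hc, Matrix.smul_one_eq_diagonal]⟩
    · rw [← htr, Matrix.trace]
      refine Finset.sum_congr ?_ fun _ _ => rfl
      ext a
      simp [Subsingleton.elim (0 : Fin 1) i]
    · have h1 : (Finset.univ.filter fun a : Fin n => Pool.Agent.R932.one1 n a = i) =
          Finset.univ := by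
        ext a
        simp [Subsingleton.elim (0 : Fin 1) i]
      rw [h1, Finset.card_univ, Fintype.card_fin, hn]
    · rcases hpq with ⟨h1, h2⟩ | h1
      · refine Or.inl ⟨h1, h2, ?_⟩
        rintro h3
        rw [h1, h3] at hn
        rw [hn] at hodd
        exact absurd hodd (by decide)
      · exact Or.inr h1
  have hrep : ∀ (ℓ : ℕ) [Fact ℓ.Prime], Pool.Agent.R932.RepT s T S P ℓ (β ℓ) := fun ℓ _ =>
    ⟨(hsys ℓ).2.2.1, (hsys ℓ).2.2.2.1, (hsys ℓ).2.2.2.2⟩
  exact Pool.Agent.R932.SQ.mt_int_fp hodd hn5 hB hS hs α (fun ℓ _ => (hsys ℓ).2.1) β hrep Γ' hΓ'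
    hconn ℓ₀ hdvd hcond

end

end Pool.Agent.Results.MP_2b5912_ag.FrobeniusPolynomialsAtOnePrime
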