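import Mathlib
import Pool.Agent.R932.OP.IrrC

/-!
# The integral Mumford-Tate conjecture at one prime implies it at 100 percent of the primes with one bound,
for `H^2` with a transcendental part of odd rank

Let `X` be a smooth projective variety over a field `k` which is finitely generated over `ℚ`,
`H = N ⊕ T` the decomposition (over `ℚ`, and over `ℤ_ℓ` for almost all `ℓ`) of `H^2(X, ℤ(1))` into the
algebraic classes and the transcendental part; `T` is a Hodge structure of K3 type (`p = 1`) or with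
`p_g = p` small in comparison with its rank, with endomorphisms `ℚ`, and its rank `n = 2 p + q` is odd and at
least `5`. `Γ` is the Galois group of `k`, `K` a number field and `s : G_K → Γ` the homomorphism given by a
closed point of the generic fibre of a model of `X` (if `k` is a number field, then `K = k` and `s` is the
identity). The representations of `Γ` on `N_ℓ` (with finite image) and on the lattices `T_ℓ`
preserve the forms and are compatible (Deligne). `Γ'` is the subgroup of the field `k^conn`.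

**Theorem.** Suppose that for ONE prime number `ℓ₀` which does not divide `n - 1` the image of `Γ'` (more
precisely: of the elements of `Γ'` which come from the closed point) has finite index in `G(ℤ_{ℓ₀})`, `G` the
Mumford-Tate group. So this is the Mumford-Tate conjecture at the one prime `ℓ₀`, for `X` over a number
field; for general `k` a closed point exists at which the image is the same, by Hilbert's
irreducibility theorem (Serre, Terasoma). Then for all prime numbers `ℓ` outside a set of natural density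
zero the image of `Γ'` is a subgroup of `G(ℤ_ℓ)` of index at most `c(n) [Γ : Γ']`, with a universal function
`c`: the bound of Serre's question holds with one explicit constant at 100 percent of the primes.

In the known result `IntegralOddRankDensityOne` of the same problem there is no hypothesis at a single
prime, but conditions on the Galois groups of infinitely many Frobenius polynomials. The known
implications from Mumford-Tate at one prime to Mumford-Tate at all primes (Larsen and Pink, Serre) need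
Faltings' theorem and concern abelian varieties (and K3 surfaces).

Idea of the proof. (1) If the image has finite index in `G(ℤ_{ℓ₀})`, then suitable powers of the Cayley
transforms of `ℓ₀^k X`, `X ∈ so(T)`, belong to the image, so its Lie algebra is `so(T)`. (2) From the open
image at `ℓ₀` one finds (Chebotarev, p-adic approximation) places `v` with roots of the Frobenius
polynomial `P_v` in special positions over `ℚ_{ℓ₀}`: a place with `x y ≠ z` for all roots, and a place with
a full cycle. The zero-one laws (over `ℚ_ℓ`: starting files, modulo `ℓ`: `BrauerTorsionDensityOne`) show that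
there are no Tate subquotients of `T_ℓ / ℓ` for 100 percent of the `ℓ`; one gets infinitely many primes with
open image, and then places `v` for which the Galois group of `P_v` is the full Weyl group of type `B`
over any given number field (local types at four of these primes). Chebotarev's theorem for `ℓ` shows that
for 100 percent of the primes a subspace of `T_ℓ / ℓ` which is stable under a subgroup of bounded index
is `0` or everything. (3) Jordan's theorem in the form of elements of order `ℓ`, the logarithm modulo `ℓ` and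
Nakayama's lemma give the bound for the index (`IntegralOddRankDensityOne`).

Part (2) uses the global argument of the starting files (project ZI of helper142, most of its tasks were
proved there); the other tasks were proved in this run by helper393 (permutation groups), helper757
(unramified extensions), helper810 (clusters of roots, full cycles), helper62 (other local types),
helper329 (generic type), helper499 and helper539 (elements of the orthogonal Lie algebra) and helper557
(no Tate subquotients for open images, Cayley transforms).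
-/

set_option autoImplicit false

namespace Pool.Agent.Results.MP_2b5912_ag.OnePrimeSuffices

open MvPolynomial Matrix Filter Topology NumberField IsDedekindDomain
open Pool.Agent.W544.PG (HS)

noncomputable section

section groups

variable {ι : Type} [Fintype ι] [DecidableEq ι]

/-- The value of a rational polynomial in the entries at a matrix. -/
def value {R : Type} [CommRing R] [Algebra ℚ R] (g : Matrix ι ι R)
    (f : MvPolynomial (ι × ι) ℚ) : R :=
  aeval (fun q : ι × ι => g q.1 q.2) f

/-- `G` is the set of complex points of an algebraic subgroup over `ℚ` of the general linear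
group. -/
def IsQGroup (G : Set (Matrix ι ι ℂ)) : Prop :=
  (∃ P : Set (MvPolynomial (ι × ι) ℚ), ∀ g, g ∈ G ↔ g.det ≠ 0 ∧ ∀ f ∈ P, value g f = 0) ∧
  1 ∈ G ∧ (∀ a ∈ G, ∀ b ∈ G, a * b ∈ G) ∧ ∀ a ∈ G, a⁻¹ ∈ G

/-- The complex points of the Mumford-Tate group: the smallest algebraic subgroup over `ℚ` which
contains `h z` for all `z`. -/
def mumfordTate (h : ℂ → Matrix ι ι ℂ) : Set (Matrix ι ι ℂ) :=
  {g | ∀ G, IsQGroup G → (∀ z, z ≠ 0 → h z ∈ G) → g ∈ G}

/-- The points of the Mumford-Tate group over a field `R`. -/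
def InMumfordTate {R : Type} [Field R] [Algebra ℚ R] (h : ℂ → Matrix ι ι ℂ)
    (g : Matrix ι ι R) : Prop :=
  ∀ f : MvPolynomial (ι × ι) ℚ, (∀ m ∈ mumfordTate h, value m f = 0) → value g f = 0

/-- The group `G(ℤ_ℓ)`: the matrices in `GL(ℤ_ℓ)` which are points of the Mumford-Tate group. -/
def mumfordTateIntegral (ℓ : ℕ) [Fact ℓ.Prime] (h : ℂ → Matrix ι ι ℂ) : Set (Matrix ι ι ℤ_[ℓ]) :=
  {g | IsUnit g.det ∧ InMumfordTate h (g.map (algebraMap ℤ_[ℓ] ℚ_[ℓ]))}

/-- The Zariski closure over `ℚ_ℓ` of the image of the subgroup `Γ'` is connected: a polynomial that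
vanishes on the image of a subgroup of finite index of `Γ'` vanishes on the image of `Γ'`. -/
def HasConnectedClosure {ℓ : ℕ} [Fact ℓ.Prime] {Γ : Type} [Group Γ] (ρ : Γ →* Matrix ι ι ℤ_[ℓ])
    (Γ' : Subgroup Γ) : Prop :=
  ∀ f : MvPolynomial (ι × ι) ℚ_[ℓ],
    (∃ Δ : Subgroup Γ, Δ.index ≠ 0 ∧ ∀ σ ∈ Γ', σ ∈ Δ →
      aeval (fun q : ι × ι => algebraMap ℤ_[ℓ] ℚ_[ℓ] (ρ σ q.1 q.2)) f = 0) →
    ∀ σ ∈ Γ', aeval (fun q : ι × ι => algebraMap ℤ_[ℓ] ℚ_[ℓ] (ρ σ q.1 q.2)) f = 0

/-- `H` is contained in `G`, and `G` is the union of at most `C` left cosets `x H` (for groups: `H` is a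
subgroup of `G` of index at most `C`). -/
def HasIndexAtMost {R : Type} [CommRing R] (C : ℕ) (H G : Set (Matrix ι ι R)) : Prop :=
  H ⊆ G ∧ ∃ F : Finset (Matrix ι ι R), F.card ≤ C ∧ ∀ g ∈ G, ∃ x ∈ F, ∃ h ∈ H, g = x * h

end groups

/-- The action of `ℂ^×` on `N ⊕ T`: trivial on `N`, and on `T` it is multiplication by `conj z / z`,
`1`, `z / conj z` on the parts where `T.x` is `1`, `0`, `-1`. -/
def hodge {n : ℕ} (κ : Type) [Fintype κ] [DecidableEq κ] (T : HS n) (z : ℂ) :
    Matrix (κ ⊕ Fin n) (κ ⊕ Fin n) ℂ :=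
  fromBlocks 1 0 0 (1 + ((starRingEnd ℂ z / z - 1) / 2) • (T.x * T.x + T.x) +
    ((z / starRingEnd ℂ z - 1) / 2) • (T.x * T.x - T.x))

/-- An `ℓ`-adic integral matrix as a matrix over `ℚ_ℓ`. -/
def rat {n ℓ : ℕ} [Fact ℓ.Prime] (g : Matrix (Fin n) (Fin n) ℤ_[ℓ]) :
    Matrix (Fin n) (Fin n) ℚ_[ℓ] :=
  g.map (algebraMap ℤ_[ℓ] ℚ_[ℓ])

/-- The integral representation `α ⊕ β` of the Galois group on `N_ℓ ⊕ T_ℓ`. -/
def galois {n : ℕ} {κ : Type} [Fintype κ] [DecidableEq κ] {ℓ : ℕ} [Fact ℓ.Prime] {Γ : Type}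
    [Group Γ] (α : Γ →* Matrix κ κ ℤ_[ℓ]) (β : Γ →* Matrix (Fin n) (Fin n) ℤ_[ℓ]) :
    Γ →* Matrix (κ ⊕ Fin n) (κ ⊕ Fin n) ℤ_[ℓ] where
  toFun σ := fromBlocks (α σ) 0 0 (β σ)
  map_one' := (Pool.Agent.R932.totI α β).map_one
  map_mul' := (Pool.Agent.R932.totI α β).map_mul

/-- the absolute Galois group of `K`, with its profinite (Krull) topology -/
abbrev AbsoluteGaloisGroup (K : Type) [Field K] : Type := Gal(AlgebraicClosure K/K)

/-- `σ` is an (arithmetic) Frobenius element at the prime `v` of the number field `K`: for some prime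
`Q` of the algebraic closure above `v` it acts on the residue field as `x ↦ x ^ N(v)` -/
def IsFrobenius {K : Type} [Field K] [NumberField K] (v : HeightOneSpectrum (𝓞 K))
    (σ : AbsoluteGaloisGroup K) : Prop :=
  ∃ Q : Ideal (𝓞 (AlgebraicClosure K)), Q.IsMaximal ∧
    Q.comap (algebraMap (𝓞 K) (𝓞 (AlgebraicClosure K))) = v.asIdeal ∧
    ∀ x : 𝓞 (AlgebraicClosure K), σ • x - x ^ Ideal.absNorm v.asIdeal ∈ Q

/-- `α` and `β` are the representations on `N_ℓ` and on `T_ℓ`: both are continuous, `α` has finite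
image, `β` preserves the form of `T`, and for all `v ∉ S` which are prime to `ℓ` the characteristic
polynomial of (the image under `s` of) the geometric Frobenius elements `σ⁻¹` (`σ` arithmetic) at
`v` on `T` is `P v` -/
def IsSystem {n : ℕ} {K : Type} [Field K] [NumberField K] {Γ : Type} [Group Γ]
    [TopologicalSpace Γ] (s : AbsoluteGaloisGroup K →* Γ) {κ : Type} [Fintype κ] [DecidableEq κ]
    (T : HS n) (S : Set (HeightOneSpectrum (𝓞 K)))
    (P : HeightOneSpectrum (𝓞 K) → Polynomial ℚ) (ℓ : ℕ) [Fact ℓ.Prime]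
    (α : Γ →* Matrix κ κ ℤ_[ℓ]) (β : Γ →* Matrix (Fin n) (Fin n) ℤ_[ℓ]) : Prop :=
  Continuous α ∧ (Set.range α).Finite ∧ Continuous β ∧
    (∀ σ, (rat (β σ))ᵀ * T.Q.map (algebraMap ℚ ℚ_[ℓ]) * rat (β σ) =
      T.Q.map (algebraMap ℚ ℚ_[ℓ])) ∧
    ∀ v ∉ S, (ℓ : 𝓞 K) ∉ v.asIdeal → ∀ σ : AbsoluteGaloisGroup K, IsFrobenius v σ →
      (rat (β (s σ⁻¹))).charpoly = (P v).map (algebraMap ℚ ℚ_[ℓ])

/-- the set `A` of prime numbers has natural density zero -/
def HasDensityZero (A : Set ℕ) : Prop :=
  Tendsto (fun n : ℕ => (Nat.card {ℓ : ℕ // ℓ ≤ n ∧ ℓ ∈ A} : ℝ) / (Nat.primeCounting n : ℝ))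
    atTop (𝓝 0)

/-- **The integral Mumford-Tate conjecture for `H^2 = N ⊕ T`, `T` of odd rank: a bound for the index of the
image in `G(ℤ_ℓ)` at one prime implies one explicit bound at 100 percent of the primes `ℓ`.** -/
theorem result : ∃ c : ℕ → ℕ, ∀ (n : ℕ) (T : HS n) (_ : Odd n) (_ : 5 ≤ n)
    -- the Hodge structure
    (_ : ∀ A : Matrix (Fin n) (Fin n) ℚ,
      A.map (fun a : ℚ => (a : ℂ)) * T.x = T.x * A.map (fun a : ℚ => (a : ℂ)) →
      ∃ c : ℚ, A = c • (1 : Matrix (Fin n) (Fin n) ℚ))
    (p q : ℕ) (_ : (T.x * T.x).trace = 2 * (p : ℂ)) (_ : n = 2 * p + q)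
    (_ : (p = 1 ∧ 0 < q) ∨ (0 < p ∧ 2 * p ^ 2 * (p ^ 2 + 1) < (q - 2 * p) * (q + p)))
    -- the Galois group
    (K : Type) [Field K] [NumberField K] (Γ : Type) [Group Γ] [TopologicalSpace Γ]
    [IsTopologicalGroup Γ] [CompactSpace Γ] (s : AbsoluteGaloisGroup K →* Γ) (_ : Continuous s)
    (S : Set (HeightOneSpectrum (𝓞 K))) (_ : S.Finite)
    (P : HeightOneSpectrum (𝓞 K) → Polynomial ℚ)
    (κ : Type) [Fintype κ] [DecidableEq κ]
    (α : ∀ (ℓ : ℕ) [Fact ℓ.Prime], Γ →* Matrix κ κ ℤ_[ℓ])
    (β : ∀ (ℓ : ℕ) [Fact ℓ.Prime], Γ →* Matrix (Fin n) (Fin n) ℤ_[ℓ])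
    (_ : ∀ (ℓ : ℕ) [Fact ℓ.Prime], IsSystem s T S P ℓ (α ℓ) (β ℓ))
    -- the subgroup of the field `k^conn`
    (Γ' : Subgroup Γ) (_ : Γ'.index ≠ 0)
    (_ : ∀ (ℓ : ℕ) [Fact ℓ.Prime], HasConnectedClosure (galois (α ℓ) (β ℓ)) Γ')
    -- the prime number `ℓ₀` and the integral Mumford-Tate conjecture at `ℓ₀` for the closed point
    (ℓ₀ : ℕ) [Fact ℓ₀.Prime] (_ : ¬ ℓ₀ ∣ n - 1)
    (_ : ∃ C₀ : ℕ, HasIndexAtMost C₀ (galois (α ℓ₀) (β ℓ₀) '' {γ | γ ∈ Γ' ∧ ∃ σ, s σ = γ})
      (mumfordTateIntegral ℓ₀ (hodge κ T))),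
    HasDensityZero {ℓ | ∃ _ : Fact ℓ.Prime,
      ¬ HasIndexAtMost (c n * Γ'.index) (galois (α ℓ) (β ℓ) '' (Γ' : Set Γ))
        (mumfordTateIntegral ℓ (hodge κ T))} := by
  refine ⟨Pool.Agent.R932.cI, ?_⟩
  intro n T hodd hn5 hEnd p q htr hn hpq K _ _ Γ _ _ _ _ s hs S hS P κ _ _ α β hsys Γ' hΓ' hconn ℓ₀
    _ hdvd ⟨C₀, hone⟩
  have hB : T.Big (Pool.Agent.R932.one1 n) (fun _ => p) (fun _ => q) := by
    refine ⟨fun a b hab => absurd rfl hab, fun a b hab => absurd rfl hab, fun A hA => ?_,
      fun i => ?_, fun i => ?_, fun i => ?_⟩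
    · obtain ⟨c, hc⟩ := hEnd A hA
      exact ⟨fun _ => c, by rw [hc, Matrix.smul_one_eq_diagonal]⟩
    · rw [← htr, Matrix.trace]
      refine Finset.sum_congr ?_ fun _ _ => rfl
      ext a
      simp [Subsingleton.elim (0 : Fin 1) i]
    · have h1 : (Finset.univ.filter fun a : Fin n => Pool.Agent.R932.one1 n a = i) =
          Finset.univ := by
        ext a
        simp [Subsingleton.elim (0 : Fin 1) i]
      rw [h1, Finset.card_univ, Fintype.card_fin, hn]
    · rcases hpq with ⟨h1, h2⟩ | h1
      · refine Or.inl ⟨h1, h2, ?_⟩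
        rintro h3
        rw [h1, h3] at hn
        rw [hn] at hodd
        exact absurd hodd (by decide)
      · exact Or.inr h1
  have hrep : ∀ (ℓ : ℕ) [Fact ℓ.Prime], Pool.Agent.R932.RepT s T S P ℓ (β ℓ) := fun ℓ _ =>
    ⟨(hsys ℓ).2.2.1, (hsys ℓ).2.2.2.1, (hsys ℓ).2.2.2.2⟩
  exact Pool.Agent.R932.OP.mt_int_one hodd hn5 hB hS hs α (fun ℓ _ => (hsys ℓ).2.1) β hrep Γ' hΓ'
    hconn ℓ₀ hdvd (fun γ hγ => hγ.2) hone

end

end Pool.Agent.Results.MP_2b5912_ag.OnePrimeSuffices
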