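import Pool.Agent.R914.LG.Two

/-!
# The Mumford–Tate conjecture for `H²` and two classes of degree four

Let `X` be a smooth projective variety over a finitely generated field of characteristic zero,
`V = H²(X, ℚ_ℓ(1))`, `ψ` the form on `V` given by a polarisation, `𝔤 ⊂ End V` the Lie algebra of the
image of Galois and `𝔥 = Lie G ⊗ ℚ_ℓ`, where `G` is the Mumford–Tate group. Both consist of skew
endomorphisms for `ψ`. Suppose that the centre of the algebra of Hodge endomorphisms of `H²` is fixed by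
the involution defined by `ψ` (no factors of CM type).

As `G` is reductive there is a projection `Q` of `End V` onto `𝔥` which commutes with `𝔥`, a
combination of Hodge classes in `V^⊗4 ⊂ H⁸(X⁴)(4)`.

*Theorem.* (1) The image of `Γ_{k^conn}` is a subgroup of `G(ℤ_ℓ)` (that is, `𝔤 ⊂ 𝔥`) if and only if the Hodge
endomorphisms of `H²` (Hodge classes in `V^⊗2 ⊂ H⁴(X²)(2)`) are Tate classes and the single class `Q` is a
Tate class. Nothing is assumed on the Galois representation.

(2) Suppose that the Galois representation is semisimple, so that there is a projection `P` of `End V` onto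
`𝔤` which is a Tate class. The image of `Γ_{k^conn}` is a subgroup of finite index of `G(ℤ_ℓ)` (that is, the
Mumford–Tate conjecture holds at `ℓ`, `𝔤 = 𝔥`) if and only if the Tate and the Hodge endomorphisms
coincide, `Q` is a Tate class and `P` is a Hodge class.
-/

namespace Pool.Agent.Results.MP_2b5912_ag.TwoClassesOfDegreeFour

open Pool.Agent.R914.LG

/-- **The inclusion of the Galois Lie algebra in the Mumford–Tate Lie algebra, and their equality, are
decided by the classes of degree two and by one class, respectively two classes, of degree four.** -/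
theorem result {F V : Type} [Field F] [CharZero F] [AddCommGroup V] [Module F V]
    [FiniteDimensional F V] {ψ : V →ₗ[F] V →ₗ[F] F} (hψ : Function.Injective ψ)
    {𝔤 𝔥 : Submodule F (Module.End F V)} (hl𝔥 : IsLie 𝔥) (h𝔥 : IsReductive 𝔥)
    (hs𝔤 : IsSkew ψ 𝔤) (hs𝔥 : IsSkew ψ 𝔥) (hcen : SelfAdjointCentre ψ 𝔥)
    {Q : Module.End F (Module.End F V)} (hQ : IsProjector Q 𝔥) :
    (𝔤 ≤ 𝔥 ↔ commutant 𝔥 ⊆ commutant 𝔤 ∧ Q ∈ tate 𝔤) ∧
      (IsLie 𝔤 → IsReductive 𝔤 → ∀ P, IsProjector P 𝔤 →
        (𝔤 = 𝔥 ↔ commutant 𝔤 = commutant 𝔥 ∧ Q ∈ tate 𝔤 ∧ P ∈ tate 𝔥)) :=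
  ⟨le_iff_one hψ hl𝔥 h𝔥 hs𝔤 hs𝔥 hcen hQ, fun hl h𝔤 _ hP =>
    eq_iff_two hψ hl hl𝔥 h𝔤 h𝔥 hs𝔤 hs𝔥 hcen hP hQ⟩

end Pool.Agent.Results.MP_2b5912_ag.TwoClassesOfDegreeFour
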